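import Pool.Agent.H.MP_c8f9b2_an.A

set_option autoImplicit false
set_option linter.unusedSectionVars false

namespace Pool.Agent.H.MP_6d9676_an
open Filter Set Topology MeasureTheory

lemma cmp {f f' : ℝ → ℝ} {a b : ℝ} (hab : a ≤ b)
    (h : ∀ r ∈ Icc a b, HasDerivAt f (f' r) r ∧ 0 ≤ f' r) : f a ≤ f b :=
  monotoneOn_of_deriv_nonneg (convex_Icc a b)
    (fun r hr => (h r hr).1.continuousAt.continuousWithinAt)
    (fun r hr => (h r (interior_subset hr)).1.differentiableAt.differentiableWithinAt)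
    (fun r hr => by rw [(h r (interior_subset hr)).1.deriv]; exact (h r (interior_subset hr)).2)
    (left_mem_Icc.2 hab) (right_mem_Icc.2 hab) hab

lemma lim_le {f f' : ℝ → ℝ} {R L : ℝ} (hR : 0 < R)
    (h : ∀ r, 0 < r → r ≤ R → HasDerivAt f (f' r) r ∧ 0 ≤ f' r)
    (hl : Tendsto f (𝓝[>] 0) (𝓝 L)) : L ≤ f R := by
  refine le_of_tendsto hl ?_
  filter_upwards [Ioc_mem_nhdsGT hR] with s hs
  exact cmp hs.2 fun r hr => h r (hs.1.trans_le hr.1) hr.2

lemma ct {f : ℝ → ℝ} {L : ℝ} (hf : Continuous f) (h : f 0 = L) : Tendsto f (𝓝[>] 0) (𝓝 L) :=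
  h ▸ (hf.tendsto 0).mono_left nhdsWithin_le_nhds

variable {a : ℝ} {u u1 w q : ℝ → ℝ}
  (hu : ∀ r, HasDerivAt u (u1 r) r) (hu1 : Continuous u1) (hq0 : Continuous q)
  (h0 : u 0 = 0) (hq00 : q 0 = 0)
  (hP : ∀ r, 0 < r → HasDerivAt (fun s => s ^ 3 * u1 s) (r ^ 3 * w r) r)
  (hw : ∀ r, 0 < r → HasDerivAt w (q r / r ^ 3) r)
  (hq : ∀ r, 0 < r → HasDerivAt q (-6 * (r ^ 3 * Real.exp (4 * u r))) r)
  (hl : Tendsto w (𝓝[>] 0) (𝓝 (4 * a)))

include hu hP hw hq

lemma aux : ∃ W p : ℕ → ℝ → ℝ,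
    (∀ j ≤ 1, ∀ r, 0 < r → HasDerivAt (W j) (p j r / r ^ (2 * 1 + 1)) r) ∧
    (∀ j ≤ 1, ∀ r, 0 < r → HasDerivAt (p j) (r ^ (2 * 1 + 1) * W (j + 1) r) r) ∧
    (∀ r, 0 < r → W (1 + 1) r = - Real.exp (W 0 r)) ∧
    (W 0 = fun r => 4 * u r + Real.log 24) ∧ W 1 = fun r => 4 * w r := by
  refine ⟨fun j => match j with
      | 0 => fun r => 4 * u r + Real.log 24
      | 1 => fun r => 4 * w r
      | _ => fun r => - Real.exp (4 * u r + Real.log 24),
    fun j => match j with
      | 0 => fun r => 4 * (r ^ 3 * u1 r)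
      | _ => fun r => 4 * q r, fun j hj r hr => ?_, fun j hj r hr => ?_, fun _ _ => rfl, rfl, rfl⟩
  · interval_cases j
    · refine (((hu r).const_mul 4).add_const _).congr_deriv ?_
      simp only; field_simp
    · refine ((hw r hr).const_mul 4).congr_deriv ?_
      simp only; ring
  · interval_cases j
    · refine ((hP r hr).const_mul 4).congr_deriv ?_
      simp only; ring
    · refine ((hq r hr).const_mul 4).congr_deriv ?_
      simp only [Real.exp_add, Real.exp_log (by norm_num : (0 : ℝ) < 24)]; ring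

lemma intg : IntegrableOn (fun r => r ^ 3 * Real.exp (4 * u r)) (Ioi 0) := by
  obtain ⟨W, p, a1, a2, a3, a4, -⟩ := aux hu hP hw hq
  have hc : Continuous u := continuous_iff_continuousAt.2 fun r => (hu r).continuousAt
  have := Pool.Agent.H.MP_c8f9b2_an.main a1 a2 a3 (by rw [a4]; fun_prop)
  refine (this.const_mul (1 / 24)).congr (ae_of_all _ fun r => ?_)
  simp only [a4, Real.exp_add, Real.exp_log (by norm_num : (0 : ℝ) < 24)]; ring

include hq0 hq00

lemma q_le {r : ℝ} (hr : 0 < r) : q r ≤ 0 := by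
  have := lim_le (f := fun s => - q s) hr (fun s hs _ => ⟨(hq s hs).neg, by
    have : 0 ≤ s ^ 3 * Real.exp (4 * u s) := by positivity
    linarith⟩) (ct hq0.neg (L := 0) (by simp [hq00]))
  linarith

lemma q_ge {r : ℝ} (hr : 0 < r) :
    - q r ≤ 6 * ∫ s in Ioi 0, s ^ 3 * Real.exp (4 * u s) := by
  have hc : Continuous u := continuous_iff_continuousAt.2 fun r => (hu r).continuousAt
  have := intervalIntegral.integral_eq_sub_of_hasDerivAt_of_le hr.le hq0.continuousOn
    (fun s hs => hq s hs.1) (Continuous.intervalIntegrable (by fun_prop) _ _)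
  rw [hq00, intervalIntegral.integral_const_mul, intervalIntegral.integral_of_le hr.le] at this
  have h2 := setIntegral_mono_set (intg hu hP hw hq) (t := Ioi 0) (s := Ioc 0 r)
    ((ae_restrict_iff' measurableSet_Ioi).2 (ae_of_all _ fun s hs => by
      have : 0 < s := hs
      positivity)) Ioc_subset_Ioi_self.eventuallyLE
  linarith

include hu1 h0 hl

lemma u_le {r : ℝ} (hr : 0 < r) : u r ≤ a * r ^ 2 / 2 := by
  have a1 : ∀ r, 0 < r → w r ≤ 4 * a := fun r hr => by
    have := lim_le (f := fun s => - w s) hr (fun s hs _ => ⟨(hw s hs).neg, by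
      have := q_le hu hq0 hq00 hP hw hq hs
      rw [← neg_div]; exact div_nonneg (by linarith) (by positivity)⟩) hl.neg
    linarith
  have a2 : ∀ r, 0 < r → u1 r ≤ a * r := fun r hr => by
    have := lim_le (f := fun s => a * s ^ 4 - s ^ 3 * u1 s) (L := 0) hr (fun s hs _ =>
      ⟨((hasDerivAt_pow 4 s).const_mul a).sub (hP s hs), by
        have := mul_le_mul_of_nonneg_left (a1 s hs) (pow_pos hs 3).le
        norm_num; linarith⟩) (ct (by fun_prop) (by simp))
    have h3 := pow_pos hr 3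
    by_contra hh
    nlinarith
  have hc : Continuous u := continuous_iff_continuousAt.2 fun r => (hu r).continuousAt
  have := lim_le (f := fun s => a * s ^ 2 / 2 - u s) (L := 0) hr (fun s hs _ =>
    ⟨(((hasDerivAt_pow 2 s).const_mul a).div_const 2).sub (hu s), by
      have := a2 s hs
      norm_num; linarith⟩) (ct (by fun_prop) (by simp [h0]))
  linarith

lemma low (ha : 0 ≤ a) {R : ℝ} (hR : 0 < R) :
    2 * R ^ 2 * (4 * a - 3 / 4 * Real.exp (2 * a * R ^ 2) * R ^ 2) ≤
      6 * ∫ s in Ioi 0, s ^ 3 * Real.exp (4 * u s) := by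
  set M := 6 * ∫ s in Ioi 0, s ^ 3 * Real.exp (4 * u s) with hM
  set e := Real.exp (2 * a * R ^ 2) with he
  have a1 : ∀ r, 0 < r → r ≤ R → - q r ≤ 3 / 2 * e * r ^ 4 := fun r hr hrR => by
    have := lim_le (f := fun s => 3 / 2 * e * s ^ 4 + q s) (L := 0) hr (fun s hs hsr =>
      ⟨((hasDerivAt_pow 4 s).const_mul _).add (hq s hs), by
        have b1 := u_le hu hu1 hq0 h0 hq00 hP hw hq hl hs
        have b2 : a * s ^ 2 ≤ a * R ^ 2 := by gcongr; exact hsr.trans hrR
        have b3 : Real.exp (4 * u s) ≤ e := Real.exp_le_exp.2 (by linarith)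
        have := mul_le_mul_of_nonneg_left b3 (pow_pos hs 3).le
        norm_num; linarith⟩) (ct (by fun_prop) (by simp [hq00]))
    linarith
  have a2 : 4 * a ≤ w R + 3 / 4 * e * R ^ 2 := by
    refine lim_le (f := fun s => w s + 3 / 4 * e * s ^ 2) hR (fun s hs hsr =>
      ⟨(hw s hs).add ((hasDerivAt_pow 2 s).const_mul _), ?_⟩) ?_
    · have : -(3 / 2 * e * s) ≤ q s / s ^ 3 := by
        rw [le_div_iff₀ (pow_pos hs 3)]
        have := a1 s hs hsr
        linarith
      norm_num; linarith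
    · simpa using hl.add (ct (f := fun s => 3 / 4 * e * s ^ 2) (L := 0) (by fun_prop) (by simp))
  have hM0 : 0 ≤ M := le_trans (by linarith [q_le hu hq0 hq00 hP hw hq hR])
    (q_ge hu hq0 hq00 hP hw hq hR)
  have a3 : ∀ r, R ≤ r → w R - M / (2 * R ^ 2) ≤ w r := fun r hr => by
    have := cmp (f := fun s => w s - M / 2 * (s ^ 2)⁻¹) hr fun s hs =>
      ⟨(hw s (hR.trans_le hs.1)).sub (((hasDerivAt_pow 2 s).inv
        (pow_pos (hR.trans_le hs.1) 2).ne').const_mul _), by
        have s0 := hR.trans_le hs.1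
        have b := q_ge hu hq0 hq00 hP hw hq s0
        have : q s / s ^ 3 - M / 2 * (-((2 : ℕ) * s ^ (2 - 1)) / (s ^ 2) ^ 2) = (q s + M) / s ^ 3 := by
          field_simp; ring
        rw [this]
        exact div_nonneg (by linarith) (by positivity)⟩
    have b : 0 ≤ M / 2 * (r ^ 2)⁻¹ := by positivity
    have c : M / (2 * R ^ 2) = M / 2 * (R ^ 2)⁻¹ := by field_simp
    linarith
  by_contra hh
  have hc : 0 < w R - M / (2 * R ^ 2) := by
    rw [sub_pos, div_lt_iff₀ (by positivity)]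
    have : 2 * R ^ 2 * (4 * a - 3 / 4 * e * R ^ 2) ≤ 2 * R ^ 2 * w R := by gcongr; linarith
    linarith
  obtain ⟨W, p, b1, b2, -, b4, b5⟩ := aux hu hP hw hq
  obtain ⟨d, d0, hd⟩ := Pool.Agent.H.MP_c8f9b2_an.up2 b1 b2 (j := 0) (by omega) 1 hc (by
    filter_upwards [eventually_ge_atTop R] with r hr
    have := a3 r hr
    simp only [zero_add, b5]; linarith)
  have := Pool.Agent.H.MP_c8f9b2_an.grow (f := fun s => - q s)
    (f' := fun r => -(-6 * (r ^ 3 * Real.exp (4 * u r)))) (c := 1 / 4) (by norm_num) 0 (by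
      filter_upwards [hd, eventually_ge_atTop 1] with r h1 h2
      refine ⟨(hq r (by linarith)).neg, ?_⟩
      have c1 : 1 ≤ Real.exp (4 * u r + Real.log 24) := Real.one_le_exp (by
        simp only [b4] at h1; linarith)
      rw [Real.exp_add, Real.exp_log (by norm_num)] at c1
      have c2 : 1 ≤ r ^ 3 := one_le_pow₀ h2
      have := Real.exp_pos (4 * u r)
      nlinarith)
  obtain ⟨r, ⟨h1, h2⟩, h3⟩ := ((this.and (eventually_gt_atTop (8 * M))).and
    (eventually_gt_atTop 0)).exists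
  have := q_ge hu hq0 hq00 hP hw hq h3
  norm_num at h1
  linarith

end Pool.Agent.H.MP_6d9676_an
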